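import Pool.Agent.Q49.EX.E

/-! Fourier uniformity of the excursions. -/

set_option autoImplicit false

namespace Pool.Agent.Q49.EX

open Finset Filter Topology
open Pool.Agent.H499R2.ND (Dn Tn Td Bdd Bdd_inv AK AK_mod AK_of_bound rK rK_ge rK_nonneg cnt NS NS_inv
  NS_ncard HD HD_ncard HD_unique dens_side Inv cnt_eq exc_law dn_AK)
open Pool.Agent.Q49.AF (AddR AddA top)
open Pool.Agent.W41.MU (tw)
open Pool.Agent.W41.FU (bal)

/-- the trivial function of the class -/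
theorem sml_triv {N k : ℕ} {c : ℕ → ℂ} {η : ℝ} (h : Sml 0 1 k N c η) : ‖∑ n ∈ Icc 1 N, c n‖ ≤ η * N := by
  have h1 := h (fun _ => 1) ⟨fun _ => by simp, fun _ _ _ => by simp⟩ (fun i => Fin.elim0 i) (fun i => Fin.elim0 i)
    (fun i => Fin.elim0 i) Unit (fun _ => ()) (fun _ _ _ => rfl) {()} (fun _ _ => by simp) (by simp) (fun _ _ => 1)
    (fun _ _ => by simp)
  refine le_trans (le_of_eq ?_) h1
  congr 1
  apply sum_congr rfl; intro n _
  unfold Pool.Agent.Q49.AF.cls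
  rw [if_pos (fun i => Fin.elim0 i), mul_one, mul_one]

open scoped Classical in
/-- FOURIER UNIFORMITY OF THE EXCURSIONS -/
theorem fourier_exc {lam : ℝ} (hl : 1 ≤ lam) {ε : ℝ} (hε : 0 < ε) (hε1 : ε ≤ 1) :
    ∃ K0 : ℕ, ∀ K : ℕ, K0 ≤ K → ∃ N0 : ℕ, ∀ P : ℕ → Prop, (∀ n, 1 ≤ n → (P n ↔ P (Tn n))) → ∀ δ : ℝ,
    Dn (fun n => P n ∧ Bdd n) δ → ∀ N : ℕ, N0 ≤ N → ∀ γ : ℝ,
    ‖∑ n ∈ Icc 1 N, ((if P n ∧ Ec lam n then (1 : ℂ) else 0) - δ * (if AK K lam n then 1 else 0))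
      * Complex.exp (((γ * n : ℝ) : ℂ) * Complex.I)‖ ≤ ε * N := by
  obtain ⟨β, _, _, _, hβ⟩ := Pool.Agent.H499R2.ND.Bdd_density
  obtain ⟨K0, hK0⟩ := exc_small (β := β) hβ hl (show 0 < ε / 2 by positivity)
  refine ⟨K0, fun K hK => ?_⟩
  obtain ⟨N1, hN1⟩ := hK0 K hK
  obtain ⟨N2, _, hN2⟩ := orth_all (s := 1) (Or.inl rfl) (show 0 < ε / 2 by positivity) (by linarith) 0 (1 * 2 ^ K) 0
  refine ⟨N1 + N2, fun P hP δ hδ N hN γ => ?_⟩
  obtain ⟨Q, hQ⟩ : ∃ Q : ℕ → Prop, Q = fun n => P n ∧ Bdd n := ⟨_, rfl⟩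
  have hQn : ∀ n, Q n ↔ (P n ∧ Bdd n) := fun n => by rw [hQ]
  have hQi : ∀ n, 1 ≤ n → (Q n ↔ Q (Tn n)) := fun n hn => by
    rw [hQn, hQn]
    exact and_congr (hP n hn) (Bdd_inv n)
  rw [← hQ] at hδ
  have : NeZero (2 ^ K) := ⟨by positivity⟩
  have h2 := sml_triv (sml_res (hN2 (NS Q) (NS_inv hQi) δ (hd_nat hQi hδ) N (by omega) γ) (AK K lam) (fun n => AK_mod K lam n))
  have h3 := hN1 N (by omega)
  rw [cnt_eq, card_filter] at h3
  push_cast at h3
  have htw : ∀ n : ℕ, 1 ≤ n → tw (bal 1 (NS Q) δ) γ (n : ℤ) = ((if Q n then (1 : ℂ) else 0) - δ) *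
      Complex.exp (((γ * n : ℝ) : ℂ) * Complex.I) := by
    intro n hn
    have h4 := bal_eq (P := Q) δ hn
    unfold tw at h4 ⊢
    have e2 : Complex.exp ((((0 : ℝ) * ((n : ℤ) : ℝ) : ℝ) : ℂ) * Complex.I) = 1 := by simp
    rw [e2, mul_one] at h4
    rw [h4]
    push_cast
    rfl
  have hexp : ∀ n : ℕ, ‖Complex.exp (((γ * n : ℝ) : ℂ) * Complex.I)‖ = 1 := fun n => Complex.norm_exp_ofReal_mul_I _
  have e : ∑ n ∈ Icc 1 N, ((if P n ∧ Ec lam n then (1 : ℂ) else 0) - δ * (if AK K lam n then 1 else 0))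
      * Complex.exp (((γ * n : ℝ) : ℂ) * Complex.I)
      = ∑ n ∈ Icc 1 N, (if AK K lam n then tw (bal 1 (NS Q) δ) γ (n : ℤ) else 0)
        + ∑ n ∈ Icc 1 N, (((if P n ∧ Ec lam n then (1 : ℂ) else 0) - δ * (if AK K lam n then 1 else 0))
      * Complex.exp (((γ * n : ℝ) : ℂ) * Complex.I) - (if AK K lam n then tw (bal 1 (NS Q) δ) γ (n : ℤ) else 0)) := by
    rw [← sum_add_distrib]
    apply sum_congr rfl; intro n _; ring
  rw [e]
  refine (norm_add_le _ _).trans ?_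
  have h5 : ‖∑ n ∈ Icc 1 N, (((if P n ∧ Ec lam n then (1 : ℂ) else 0) - δ * (if AK K lam n then 1 else 0))
      * Complex.exp (((γ * n : ℝ) : ℂ) * Complex.I) - (if AK K lam n then tw (bal 1 (NS Q) δ) γ (n : ℤ) else 0))‖
      ≤ ε / 2 * N := by
    refine (norm_sum_le _ _).trans (le_trans (sum_le_sum fun n hn => ?_) h3)
    rw [mem_Icc] at hn
    by_cases hA : AK K lam n
    · rw [if_pos hA, if_pos hA, htw n hn.1, ← sub_mul, norm_mul, hexp, mul_one]
      by_cases hp : P n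
      · by_cases he : Ec lam n
        · rw [if_pos ⟨hp, he⟩, if_pos ((hQn n).2 ⟨hp, ec_bdd he⟩)]
          have e1 : (1 : ℂ) - δ * 1 - (1 - δ) = 0 := by ring
          rw [e1, norm_zero]
          split_ifs <;> norm_num
        · by_cases hb : Bdd n
          · rw [if_neg (fun h => he h.2), if_pos ((hQn n).2 ⟨hp, hb⟩), if_pos ⟨⟨hA, hb⟩, he⟩]
            have e1 : (0 : ℂ) - δ * 1 - (1 - δ) = -1 := by ring
            rw [e1, norm_neg, norm_one]
          · rw [if_neg (fun h => he h.2), if_neg (fun h => hb ((hQn n).1 h).2)]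
            have e1 : (0 : ℂ) - δ * 1 - (0 - δ) = 0 := by ring
            rw [e1, norm_zero]
            split_ifs <;> norm_num
      · rw [if_neg (fun h => hp h.1), if_neg (fun h => hp ((hQn n).1 h).1)]
        have e1 : (0 : ℂ) - δ * 1 - (0 - δ) = 0 := by ring
        rw [e1, norm_zero]
        split_ifs <;> norm_num
    · have he : ¬ Ec lam n := fun h => hA (AK_of_bound hl hn.1 h K)
      rw [if_neg (fun h => he h.2), if_neg hA, if_neg hA]
      simp only [mul_zero, sub_zero, zero_mul, norm_zero]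
      split_ifs <;> norm_num
  linarith

open scoped Classical in
/-- the number of the unsafe integers -/
theorem unsafe_card {lam : ℝ} (hl : 0 < lam) (K M : ℕ) :
    ((((Icc 1 M).filter (fun n : ℕ => ¬ AK K lam n)).card : ℕ) : ℝ) ≤ M / lam + 2 ^ K := by
  have hq : 0 < 2 ^ K := by positivity
  set R := (range (2 ^ K)).filter (fun n => ¬ AK K lam n) with hR
  have h1 : (R.card : ℝ) ≤ 2 ^ K / lam := by
    have h2 := rK_ge hl K
    unfold rK at h2
    have h3 := Finset.card_filter_add_card_filter_not (s := range (2 ^ K)) (AK K lam)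
    rw [card_range] at h3
    have h4 : (R.card : ℝ) = 2 ^ K - (((range (2 ^ K)).filter (AK K lam)).card : ℝ) := by
      have h5 : ((((range (2 ^ K)).filter (AK K lam)).card + R.card : ℕ) : ℝ) = ((2 ^ K : ℕ) : ℝ) := by
        rw [hR, h3]
      push_cast at h5
      linarith
    rw [h4]
    have h6 : (0 : ℝ) < 2 ^ K := by positivity
    have h7 : (1 - 1 / lam) * 2 ^ K ≤ (((range (2 ^ K)).filter (AK K lam)).card : ℝ) := by
      rwa [← le_div_iff₀ h6]
    have h8 : (1 - 1 / lam) * 2 ^ K = 2 ^ K - 2 ^ K / lam := by ring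
    linarith
  -- the map to quotient and remainder
  have h2 : ((Icc 1 M).filter (fun n : ℕ => ¬ AK K lam n)).card ≤ ((range (M / 2 ^ K + 1)) ×ˢ R).card := by
    apply card_le_card_of_injOn (fun n => (n / 2 ^ K, n % 2 ^ K))
    · intro n hn
      rw [mem_coe, mem_filter, mem_Icc] at hn
      rw [mem_coe, mem_product, mem_range, hR, mem_filter, mem_range]
      refine ⟨Nat.lt_succ_of_le (Nat.div_le_div_right hn.1.2), Nat.mod_lt _ hq, ?_⟩
      show ¬ AK K lam (n % 2 ^ K)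
      rw [AK_mod]; exact hn.2
    · intro a _ b _ hab
      simp only [Prod.mk.injEq] at hab
      rw [← Nat.div_add_mod a (2 ^ K), ← Nat.div_add_mod b (2 ^ K), hab.1, hab.2]
  rw [card_product, card_range] at h2
  have h3 : ((((Icc 1 M).filter (fun n : ℕ => ¬ AK K lam n)).card : ℕ) : ℝ) ≤ ((M / 2 ^ K : ℕ) + 1 : ℝ) * R.card := by
    exact_mod_cast h2
  refine h3.trans ?_
  have h4 : ((M / 2 ^ K : ℕ) : ℝ) ≤ M / 2 ^ K := by
    have := @Nat.cast_div_le ℝ _ _ _ M (2 ^ K)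
    push_cast at this
    exact this
  have h5 : (0 : ℝ) < 2 ^ K := by positivity
  have h6 : (R.card : ℝ) ≤ 2 ^ K := by
    have : R.card ≤ 2 ^ K := by
      rw [hR]; exact (card_filter_le _ _).trans (by rw [card_range])
    exact_mod_cast this
  calc ((M / 2 ^ K : ℕ) + 1 : ℝ) * R.card = ((M / 2 ^ K : ℕ) : ℝ) * R.card + R.card := by ring
    _ ≤ (M / 2 ^ K) * (2 ^ K / lam) + 2 ^ K := by
        apply add_le_add _ h6
        exact mul_le_mul h4 h1 (Nat.cast_nonneg _) (by positivity)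
    _ = M / lam + 2 ^ K := by field_simp

end Pool.Agent.Q49.EX
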