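import Pool.Agent.Q49.AF.All
import Pool.Agent.H499R2.NDWord

/-! Invariant sets relative to arithmetical functions, uniformly in the set. -/

set_option autoImplicit false

namespace Pool.Agent.Q49.EX

open Pool.Agent.H320R2.PD Pool.Agent.H499R2.ND Pool.Agent.H499R2.CO Finset MeasureTheory Filter Topology
  Pool.Agent.H376R2.MR Pool.Agent.W41.FU Pool.Agent.W41 Pool.Agent.W41.MU Pool.Agent.Q49.AF

/-- The sum of `c n` times a function of the class is small, for all functions of the class. -/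
def Sml (d r k : ℕ) (N : ℕ) (c : ℕ → ℂ) (η : ℝ) : Prop :=
  ∀ g : ℕ → ℂ, MulB g → ∀ f : Fin d → ℕ → ℝ, (∀ i, AddR (f i)) → ∀ t : Fin d → ℝ,
  ∀ (A : Type) [AddCommMonoid A], ∀ h : ℕ → A, AddA h →
  ∀ V : Finset A, (∀ p : ℕ, p.Prime → h p ∈ V) → V.card ≤ r →
  ∀ Φ : List ℕ → A → ℂ, (∀ l a, ‖Φ l a‖ ≤ 1) →
    ‖∑ n ∈ Icc 1 N, c n * Pool.Agent.Q49.AF.cls g f t h (fun n => Φ (top k n)) n‖ ≤ η * N

theorem orth_all {s : ℤ} (hs : s = 1 ∨ s = -1) {ε : ℝ} (hε : 0 < ε) (hε1 : ε ≤ 1) (d r k : ℕ) :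
    ∃ N0 : ℕ, 1 ≤ N0 ∧ ∀ S : Set ℤ, Inv 1 S → ∀ δ : ℝ, HD s S δ → ∀ N : ℕ, N0 ≤ N → ∀ γ : ℝ,
      Sml d r k N (fun n => tw (bal s S δ) γ (n : ℤ)) ε := by
  classical
  obtain ⟨T, hT1, hT, hTn⟩ := disc_net (show 0 < ε / 4 / 1024 by positivity)
  obtain ⟨K, hK⟩ : ∃ K : ℕ, K = ⌈1024 * d / (ε / 4)⌉₊ + 1 := ⟨_, rfl⟩
  have hK1 : 1 ≤ K := by omega
  have hdK : 1024 * d / (ε / 4) ≤ K := (Nat.le_ceil _).trans (by exact_mod_cast (by omega : ⌈1024 * (d : ℝ) / (ε / 4)⌉₊ ≤ K))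
  obtain ⟨H, hH10, hH, ϑ0, hϑ0, hgen⟩ := inv_gen hs (show 0 < ε / 4 by positivity) (by linarith) (K ^ d * T.card ^ r)
  obtain ⟨b1, hb1, h2⟩ := few_large k (show 0 < ε / 4 by positivity) (by linarith)
  set b : ℝ := min (ϑ0 / 8) b1 with hb
  have hbp : 0 < b := by positivity
  obtain ⟨θ1, hθ1, N0, hN01, hN0⟩ := hgen (8 * b) (by positivity) (by
    have := min_le_left (ϑ0 / 8) b1
    linarith)
  obtain ⟨N1, hN1, h4⟩ := h2 b hbp (min_le_right _ _)
  set a : ℝ := min (θ1 / 4) (b / 2) with ha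
  have hap : 0 < a := by positivity
  have hab : a < b := (min_le_right _ _).trans_lt (by linarith)
  refine ⟨N0 + N1 + 2, by omega, fun S hS δ hδ N hN γ g hg f hf t B _ h hh V hV hVr Φ hΦ => ?_⟩
  obtain ⟨hd0, hd1⟩ := HD_mem hs hδ
  have hN2 : (2 : ℝ) ≤ N := by exact_mod_cast (by omega : 2 ≤ N)
  have hNp : (0 : ℝ) < N := by linarith
  set y : ℕ := ⌊(N : ℝ) ^ a⌋₊ with hy
  set z : ℕ := ⌈(N : ℝ) ^ b⌉₊ with hz
  have hya : (y : ℝ) ≤ (N : ℝ) ^ a := Nat.floor_le (by positivity)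
  have hzb : (N : ℝ) ^ b ≤ z := Nat.le_ceil _
  have hyz : y ≤ z := by
    have h5 : (y : ℝ) ≤ z := by
      calc (y : ℝ) ≤ (N : ℝ) ^ a := hya
        _ ≤ (N : ℝ) ^ b := Real.rpow_le_rpow_of_exponent_le (by linarith) hab.le
        _ ≤ z := hzb
    exact_mod_cast h5
  have key := hyp_all (N := N) (ϑ := 8 * b) (θ1 := θ1) (show 0 < ε / 4 by positivity) hK1 hdK hH10 hH hg
    hf t hh hV hVr (Φ := fun n => Φ (top k (outer y z n))) (fun n a => hΦ _ _) hT1 hT hTn (by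
      intro X p m hX1 hX2 hp hp1 hp2 a'
      have hX0 : (0 : ℝ) < X := by
        have : 0 < X := by
          rcases Nat.eq_zero_or_pos X with h | h
          · subst h; omega
          · exact h
        exact_mod_cast this
      show Φ (top k (outer y z (p * m))) a' = Φ (top k (outer y z m)) a'
      rw [outer_mul hp]
      · have h1 : (y : ℝ) < p := by
          have h2 : (N : ℝ) ^ a ≤ (N : ℝ) ^ (θ1 / 4) :=
            Real.rpow_le_rpow_of_exponent_le (by linarith) (min_le_left _ _)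
          have h3 : (N : ℝ) ^ (θ1 / 4) < (N : ℝ) ^ (θ1 / 2) :=
            Real.rpow_lt_rpow_of_exponent_lt (by linarith) (by linarith)
          have h4 : (N : ℝ) ^ (θ1 / 2) ≤ (X : ℝ) ^ θ1 := by
            have h5 : (N : ℝ) ≤ (X : ℝ) ^ (2 : ℝ) := by
              rw [Real.rpow_two, sq]; exact_mod_cast hX1
            calc (N : ℝ) ^ (θ1 / 2) ≤ ((X : ℝ) ^ (2 : ℝ)) ^ (θ1 / 2) := Real.rpow_le_rpow hNp.le h5 (by positivity)
              _ = (X : ℝ) ^ θ1 := by rw [← Real.rpow_mul hX0.le]; congr 1; ring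
          linarith
        exact_mod_cast h1
      · have h1 : (p : ℝ) ≤ z := by
          have e : 8 * b / 8 = b := by ring
          rw [e] at hp2
          have h2 : (X : ℝ) ^ b ≤ (N : ℝ) ^ b := Real.rpow_le_rpow hX0.le (by exact_mod_cast hX2) hbp.le
          linarith
        exact_mod_cast h1)
  have h5 := hN0 N (by omega) S hS δ hδ γ _ key
  have h6 := h4 N (by omega)
  set c : ℕ → ℂ := fun n => tw (bal s S δ) γ (n : ℤ) with hc
  have hc1 : ∀ n, ‖c n‖ ≤ 1 := fun n => tw_norm (fun n => bal_abs hd0 hd1 n) _ _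
  have h7 : ‖∑ n ∈ Icc 1 N, c n * Pool.Agent.Q49.AF.cls g f t h (fun n => Φ (top k n)) n
      - ∑ n ∈ Icc 1 N, c n * Pool.Agent.Q49.AF.cls g f t h (fun n => Φ (top k (outer y z n))) n‖
      ≤ 2 * (((Icc 1 N).filter (fun n => (lf z n).length < k)).card : ℝ) := by
    rw [← sum_sub_distrib, card_filter]
    push_cast
    rw [mul_sum]
    refine (norm_sum_le _ _).trans (sum_le_sum fun n _ => ?_)
    split_ifs with hl
    · have g1 : ‖c n * Pool.Agent.Q49.AF.cls g f t h (fun n => Φ (top k n)) n‖ ≤ 1 := by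
        rw [norm_mul]
        exact mul_le_one₀ (hc1 n) (norm_nonneg _) (cls_norm hg.1 f t h (fun n a => hΦ _ _) n)
      have g2 : ‖c n * Pool.Agent.Q49.AF.cls g f t h (fun n => Φ (top k (outer y z n))) n‖ ≤ 1 := by
        rw [norm_mul]
        exact mul_le_one₀ (hc1 n) (norm_nonneg _) (cls_norm hg.1 f t h (fun n a => hΦ _ _) n)
      refine (norm_sub_le _ _).trans ?_
      linarith
    · have e : Pool.Agent.Q49.AF.cls g f t h (fun n => Φ (top k n)) n = Pool.Agent.Q49.AF.cls g f t h (fun n => Φ (top k (outer y z n))) n := by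
        unfold Pool.Agent.Q49.AF.cls
        simp only
        rw [top_outer hyz (not_lt.1 hl)]
      rw [e, sub_self, norm_zero, mul_zero]
  have e : ∑ n ∈ Icc 1 N, c n * Pool.Agent.Q49.AF.cls g f t h (fun n => Φ (top k n)) n
      = (∑ n ∈ Icc 1 N, c n * Pool.Agent.Q49.AF.cls g f t h (fun n => Φ (top k n)) n
      - ∑ n ∈ Icc 1 N, c n * Pool.Agent.Q49.AF.cls g f t h (fun n => Φ (top k (outer y z n))) n)
      + ∑ n ∈ Icc 1 N, c n * Pool.Agent.Q49.AF.cls g f t h (fun n => Φ (top k (outer y z n))) n := by ring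
  show ‖∑ n ∈ Icc 1 N, c n * Pool.Agent.Q49.AF.cls g f t h (fun n => Φ (top k n)) n‖ ≤ ε * N
  rw [e]
  refine (norm_add_le _ _).trans ?_
  have h8 : 0 < ε * N := by positivity
  linarith

open scoped Classical in
theorem rx_sml {P : ℕ → Prop} {l : ℝ} (h : RX P l) (d r k : ℕ) {ε : ℝ} (hε : 0 < ε) (hε1 : ε ≤ 1) : ∃ N0 : ℕ, 1 ≤ N0 ∧
    ∀ N : ℕ, N0 ≤ N → Sml d r k N (fun n => (if P n then (1 : ℂ) else 0) - l) ε := h d r k ε hε hε1

open scoped Classical in
/-- a residue condition may be added -/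
theorem sml_res {d r k N q : ℕ} [NeZero q] {c : ℕ → ℂ} {η : ℝ} (h : Sml d (r * q) k N c η) (R : ℕ → Prop)
    (hR : ∀ n, R (n % q) ↔ R n) : Sml d r k N (fun n => if R n then c n else 0) η := by
  intro g hg f hf t A _ u hu V hV hVr Φ hΦ
  have h1 := h g hg f hf t (A × Additive (ZMod q)) (fun n => (u n, Additive.ofMul (n : ZMod q))) (by
    intro m n hmn
    refine Prod.ext (hu m n hmn) ?_
    show Additive.ofMul ((m * n : ℕ) : ZMod q) = Additive.ofMul (m : ZMod q) + Additive.ofMul (n : ZMod q)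
    rw [← ofMul_mul]; push_cast; rfl) (V ×ˢ univ) (by
    intro p hp
    rw [mem_product]
    exact ⟨hV p hp, mem_univ _⟩) (by
    rw [card_product]
    have : (univ : Finset (Additive (ZMod q))).card = q := by
      rw [card_univ]
      exact (Fintype.card_congr Additive.toMul).trans (ZMod.card q)
    rw [this]
    exact Nat.mul_le_mul_right _ hVr) (fun l a => if R (Additive.toMul a.2 : ZMod q).val then Φ l a.1 else 0) (by
    intro l a
    split_ifs
    · exact hΦ _ _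
    · simp)
  refine le_trans (le_of_eq ?_) h1
  congr 1
  apply sum_congr rfl; intro n _
  have e : R ((Additive.toMul (Additive.ofMul (n : ZMod q)) : ZMod q).val) ↔ R n := by
    rw [toMul_ofMul, ZMod.val_natCast, hR]
  unfold Pool.Agent.Q49.AF.cls
  beta_reduce
  by_cases h2 : R n
  · rw [if_pos h2, if_pos (e.2 h2)]
  · rw [if_neg h2, if_neg (fun h3 => h2 (e.1 h3))]
    simp

theorem sml_mono {d r k N : ℕ} {c : ℕ → ℂ} {η η' : ℝ} (h : Sml d r k N c η) (hη : η ≤ η') : Sml d r k N c η' := by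
  intro g hg f hf t A _ u hu V hV hVr Φ hΦ
  exact (h g hg f hf t A u hu V hV hVr Φ hΦ).trans (mul_le_mul_of_nonneg_right hη (Nat.cast_nonneg _))

/-- a change of small mean is harmless -/
theorem sml_add {d r k N : ℕ} {c c' : ℕ → ℂ} {η η' : ℝ} (h : Sml d r k N c η) (hc : ∑ n ∈ Icc 1 N, ‖c' n - c n‖ ≤ η' * N) :
    Sml d r k N c' (η + η') := by
  intro g hg f hf t A _ u hu V hV hVr Φ hΦ
  have h1 := h g hg f hf t A u hu V hV hVr Φ hΦ
  have e : ∑ n ∈ Icc 1 N, c' n * Pool.Agent.Q49.AF.cls g f t u (fun n => Φ (top k n)) n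
      = ∑ n ∈ Icc 1 N, c n * Pool.Agent.Q49.AF.cls g f t u (fun n => Φ (top k n)) n
        + ∑ n ∈ Icc 1 N, (c' n - c n) * Pool.Agent.Q49.AF.cls g f t u (fun n => Φ (top k n)) n := by
    rw [← sum_add_distrib]
    apply sum_congr rfl; intro n _; ring
  rw [e]
  refine (norm_add_le _ _).trans ?_
  rw [add_mul]
  refine add_le_add h1 (le_trans ?_ hc)
  refine (norm_sum_le _ _).trans (sum_le_sum fun n _ => ?_)
  rw [norm_mul]
  exact mul_le_of_le_one_right (norm_nonneg _) (cls_norm hg.1 f t u (fun n a => hΦ _ _) n)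

end Pool.Agent.Q49.EX
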