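import Pool.Agent.Q49.EX.A

/-! Maximum excursions relative to arithmetical functions. -/

set_option autoImplicit false

namespace Pool.Agent.Q49.EX

open Finset Filter Topology
open Pool.Agent.H499R2.ND (Dn Tn Td Phi Phi_continuous phi_cdf Bdd Bdd_inv AK AK_mod AK_of_bound rK rK_ge rK_nonneg cnt NS NS_inv
  NS_ncard HD HD_ncard HD_unique dens_side Inv cnt_eq exc_law dn_AK)
open Pool.Agent.Q49.AF (RX RX_congr fam_RX AddR AddA)
open Pool.Agent.W41.FU (bal bal_abs HD_mem)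
open Pool.Agent.W41 (ind)
open Pool.Agent.W41.MU (tw)

/-- `t(n) ≤ lam n` -/
def Ec (lam : ℝ) (n : ℕ) : Prop := ∀ k, ((Tn^[k] n : ℕ) : ℝ) ≤ lam * n

/-- the exceptional set -/
def BB (K : ℕ) (lam : ℝ) (n : ℕ) : Prop := (AK K lam n ∧ Bdd n) ∧ ¬ Ec lam n

theorem ec_bdd {lam : ℝ} {n : ℕ} (h : Ec lam n) : Bdd n := ⟨⌊lam * n⌋₊, fun k => Nat.le_floor (h k)⟩

theorem exc_small {β : ℝ} (hβ : Dn Bdd β) {lam : ℝ} (hl : 1 ≤ lam) {ε : ℝ} (hε : 0 < ε) : ∃ K0 : ℕ, ∀ K : ℕ, K0 ≤ K →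
    ∃ N0 : ℕ, ∀ N : ℕ, N0 ≤ N → cnt (BB K lam) N ≤ ε * N := by
  obtain ⟨q, h1, _, _, h4⟩ := exc_law hβ hl
  have h2 : Tendsto (fun K => rK K lam * β - β * q) atTop (𝓝 0) := by
    have := (h1.mul_const β).sub_const (β * q)
    rwa [mul_comm q β, sub_self] at this
  obtain ⟨K0, hK0⟩ := eventually_atTop.1 (h2.eventually (gt_mem_nhds hε))
  refine ⟨K0, fun K hK => ?_⟩
  have h3 := (dn_AK Bdd_inv hβ K lam).sub h4
  obtain ⟨N1, hN1⟩ := eventually_atTop.1 (h3.eventually (gt_mem_nhds (hK0 K hK)))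
  refine ⟨N1 + 1, fun N hN => ?_⟩
  have g := hN1 N (by omega)
  have hNR : (0 : ℝ) < N := by exact_mod_cast (by omega : 0 < N)
  have i3 : cnt (BB K lam) N + cnt (fun n => ∀ k, ((Tn^[k] n : ℕ) : ℝ) ≤ lam * n) N
      = cnt (fun n => AK K lam n ∧ Bdd n) N := by
    unfold cnt BB Ec
    have hf : ∀ R : ℕ → Prop, {n : ℕ | 1 ≤ n ∧ n ≤ N ∧ R n}.Finite := fun R =>
      (Set.finite_Icc 1 N).subset fun n hn => ⟨hn.1, hn.2.1⟩
    have e : {n : ℕ | 1 ≤ n ∧ n ≤ N ∧ (AK K lam n ∧ Bdd n)}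
        = {n : ℕ | 1 ≤ n ∧ n ≤ N ∧ ((AK K lam n ∧ Bdd n) ∧ ¬ ∀ k, ((Tn^[k] n : ℕ) : ℝ) ≤ lam * n)}
          ∪ {n : ℕ | 1 ≤ n ∧ n ≤ N ∧ ∀ k, ((Tn^[k] n : ℕ) : ℝ) ≤ lam * n} := by
      ext n
      constructor
      · rintro ⟨h1, h2, h3⟩
        by_cases h5 : ∀ k, ((Tn^[k] n : ℕ) : ℝ) ≤ lam * n
        · exact Or.inr ⟨h1, h2, h5⟩
        · exact Or.inl ⟨h1, h2, h3, h5⟩
      · rintro (⟨h1, h2, h3, _⟩ | ⟨h1, h2, h3⟩)
        · exact ⟨h1, h2, h3⟩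
        · exact ⟨h1, h2, AK_of_bound hl h1 h3 K, ⌊lam * n⌋₊, fun k => Nat.le_floor (h3 k)⟩
    rw [e, Set.ncard_union_eq _ (hf _) (hf _)]
    · push_cast; ring
    · rw [Set.disjoint_left]
      rintro n ⟨_, _, _, h3⟩ ⟨_, _, h4⟩
      exact h3 h4
  rw [← sub_div, div_lt_iff₀ hNR] at g
  linarith

open scoped Classical in
/-- the excursions of the `n` with a property that implies that the trajectory is bounded -/
theorem exc_step {d r k N K : ℕ} {lam : ℝ} (hl : 1 ≤ lam) {Q : ℕ → Prop} {l η : ℝ} (hQ : ∀ n, 1 ≤ n → Q n → Bdd n)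
    (h : Sml d (r * 2 ^ K) k N (fun n => (if Q n then (1 : ℂ) else 0) - l) (η / 2))
    (hB : cnt (BB K lam) N ≤ η / 2 * N) :
    Sml d r k N (fun n => (if Q n ∧ Ec lam n then (1 : ℂ) else 0) - l * (if AK K lam n then 1 else 0)) η := by
  have : NeZero (2 ^ K) := ⟨by positivity⟩
  have h1 := sml_res h (AK K lam) (fun n => AK_mod K lam n)
  have h2 := sml_add (c' := fun n => (if Q n ∧ Ec lam n then (1 : ℂ) else 0) - l * (if AK K lam n then 1 else 0))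
    (η' := η / 2) h1 (by
      refine le_trans ?_ hB
      rw [cnt_eq, card_filter]
      push_cast
      apply sum_le_sum
      intro n hn
      rw [mem_Icc] at hn
      by_cases hA : AK K lam n
      · simp only [hA, if_true, mul_one]
        by_cases hq : Q n
        · by_cases he : Ec lam n
          · rw [if_pos ⟨hq, he⟩, if_pos hq, sub_self, norm_zero]; split_ifs <;> norm_num
          · rw [if_neg (fun h => he h.2), if_pos hq, if_pos ⟨⟨hA, hQ n hn.1 hq⟩, he⟩]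
            have e : (0 : ℂ) - l - (1 - l) = -1 := by ring
            rw [e, norm_neg, norm_one]
        · rw [if_neg (fun h => hq h.1), if_neg hq, sub_self, norm_zero]; split_ifs <;> norm_num
      · have he : ¬ Ec lam n := fun h => hA (AK_of_bound hl hn.1 h K)
        rw [if_neg (fun h => he h.2), if_neg hA, if_neg hA]
        simp only [mul_zero, sub_zero, norm_zero]
        split_ifs <;> norm_num)
  have e : η / 2 + η / 2 = η := by ring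
  rwa [e] at h2

open scoped Classical in
theorem exc_rx {P : ℕ → Prop} {l : ℝ} (h : RX P l) (hP : ∀ n, 1 ≤ n → P n → Bdd n) (d r k : ℕ) {lam : ℝ} (hl : 1 ≤ lam)
    {ε : ℝ} (hε : 0 < ε) (hε1 : ε ≤ 1) : ∃ K0 : ℕ, ∀ K : ℕ, K0 ≤ K → ∃ N0 : ℕ, ∀ N : ℕ, N0 ≤ N →
    Sml d r k N (fun n => (if P n ∧ Ec lam n then (1 : ℂ) else 0) - l * (if AK K lam n then 1 else 0)) ε := by
  obtain ⟨β, _, _, _, hβ⟩ := Pool.Agent.H499R2.ND.Bdd_density
  obtain ⟨K0, hK0⟩ := exc_small (β := β) hβ hl (show 0 < ε / 2 by positivity)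
  refine ⟨K0, fun K hK => ?_⟩
  obtain ⟨N1, hN1⟩ := hK0 K hK
  obtain ⟨N2, _, hN2⟩ := rx_sml h d (r * 2 ^ K) k (show 0 < ε / 2 by positivity) (by linarith)
  exact ⟨N1 + N2, fun N hN => exc_step hl hP (hN2 N (by omega)) (hN1 N (by omega))⟩

open scoped Classical in
theorem bal_eq {P : ℕ → Prop} (l : ℝ) {n : ℕ} (hn : 1 ≤ n) :
    tw (bal 1 (NS P) l) 0 (n : ℤ) = (if P n then (1 : ℂ) else 0) - l := by
  unfold tw bal ind
  have e1 : (1 * (n : ℤ) ∈ NS P) ↔ P n := by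
    unfold NS
    simp only [one_mul, Set.mem_ofPred_eq, Int.toNat_natCast]
    constructor
    · rintro ⟨_, h⟩; exact h
    · intro h; exact ⟨by exact_mod_cast hn, h⟩
  have e2 : Complex.exp ((((0 : ℝ) * ((n : ℤ) : ℝ) : ℝ) : ℂ) * Complex.I) = 1 := by simp
  rw [e2, mul_one]
  by_cases h5 : P n
  · rw [if_pos h5, if_pos (e1.2 h5)]; push_cast; ring
  · rw [if_neg h5, if_neg (fun h6 => h5 (e1.1 h6))]; push_cast; ring

theorem sml_congr {d r k N : ℕ} {c c' : ℕ → ℂ} {η : ℝ} (h : Sml d r k N c η) (hc : ∀ n, 1 ≤ n → c n = c' n) :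
    Sml d r k N c' η := by
  have h4 := sml_add (c' := c') (η' := 0) h (by
    rw [zero_mul]
    apply le_of_eq
    apply sum_eq_zero
    intro n hn
    rw [mem_Icc] at hn
    rw [norm_eq_zero, sub_eq_zero, hc n hn.1])
  rwa [add_zero] at h4

theorem hd_nat {P : ℕ → Prop} (hP : ∀ n, 1 ≤ n → (P n ↔ P (Tn n))) {δ : ℝ} (hδ : Dn P δ) : HD 1 (NS P) δ := by
  obtain ⟨l, _, _, hl'⟩ := dens_side (d := 1) odd_one isCoprime_one_left (Or.inl rfl : (1 : ℤ) = 1 ∨ _) (NS_inv hP)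
  have hlδ : l = δ := by
    have h1 := HD_ncard (Or.inl rfl) hl'
    have h2 : Tendsto (fun N : ℕ => ({n : ℕ | 1 ≤ n ∧ n ≤ N ∧ P n}.ncard : ℝ) / N) atTop (𝓝 l) := by
      refine h1.congr fun N => ?_
      rw [NS_ncard]
    exact tendsto_nhds_unique h2 hδ
  rwa [hlδ] at hl'

open scoped Classical in
/-- UNIFORM LAW of the excursions in invariant sets. -/
theorem exc_inv (d r k : ℕ) {lam : ℝ} (hl : 1 ≤ lam) {ε : ℝ} (hε : 0 < ε) (hε1 : ε ≤ 1) :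
    ∃ K0 : ℕ, ∀ K : ℕ, K0 ≤ K → ∃ N0 : ℕ, ∀ P : ℕ → Prop, (∀ n, 1 ≤ n → (P n ↔ P (Tn n))) → ∀ δ : ℝ,
    Dn (fun n => P n ∧ Bdd n) δ → ∀ N : ℕ, N0 ≤ N →
    Sml d r k N (fun n => (if P n ∧ Ec lam n then (1 : ℂ) else 0) - δ * (if AK K lam n then 1 else 0)) ε := by
  obtain ⟨β, _, _, _, hβ⟩ := Pool.Agent.H499R2.ND.Bdd_density
  obtain ⟨K0, hK0⟩ := exc_small (β := β) hβ hl (show 0 < ε / 2 by positivity)
  refine ⟨K0, fun K hK => ?_⟩
  obtain ⟨N1, hN1⟩ := hK0 K hK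
  obtain ⟨N2, _, hN2⟩ := orth_all (s := 1) (Or.inl rfl) (show 0 < ε / 2 by positivity) (by linarith) d (r * 2 ^ K) k
  refine ⟨N1 + N2, fun P hP δ hδ N hN => ?_⟩
  obtain ⟨Q, hQ⟩ : ∃ Q : ℕ → Prop, Q = fun n => P n ∧ Bdd n := ⟨_, rfl⟩
  have hQn : ∀ n, Q n ↔ (P n ∧ Bdd n) := fun n => by rw [hQ]
  have hQi : ∀ n, 1 ≤ n → (Q n ↔ Q (Tn n)) := fun n hn => by
    rw [hQn, hQn]
    exact and_congr (hP n hn) (Bdd_inv n)
  rw [← hQ] at hδ
  have h2 := hN2 (NS Q) (NS_inv hQi) δ (hd_nat hQi hδ) N (by omega) 0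
  have h3 : Sml d (r * 2 ^ K) k N (fun n => (if Q n then (1 : ℂ) else 0) - δ) (ε / 2) :=
    sml_congr h2 (fun n hn => bal_eq δ hn)
  have h4 := exc_step hl (Q := Q) (fun n _ h => ((hQn n).1 h).2) h3 (hN1 N (by omega))
  refine sml_congr h4 (fun n _ => ?_)
  have e1 : (Q n ∧ Ec lam n) ↔ (P n ∧ Ec lam n) := by
    rw [hQn]
    exact ⟨fun h => ⟨h.1.1, h.2⟩, fun h => ⟨⟨h.1, ec_bdd h.2⟩, h.2⟩⟩
  simp only [e1]

end Pool.Agent.Q49.EX
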