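import Pool.Agent.Q49.EX.B

/-! The laws of the total stopping time relative to additive functions and large prime factors. -/

set_option autoImplicit false

namespace Pool.Agent.Q49.EX

open Finset Filter Topology
open Pool.Agent.Q49.AF hiding thr
open Pool.Agent.Y964.LW hiding thr
open Pool.Agent.H499R2.CO (Tz)
open Pool.Agent.H499R2.ND (Dn Tn Td Phi Phi_continuous phi_cdf Bas CC BasC CN_run)
open Pool.Agent.H499R2.LT (odn od od_nat Td_nat law_one law_oneC ocn oC_nat Dn_sum Dn_iff)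
open Pool.Agent.H499R2.HL (H H_two H_of_two H_unique odn_two bk bo nu rr nu_pos rr_pos sqrt_rr law_k law_o oc_odn)
open scoped Classical

theorem rx_laws : ∃ δ : ℝ, 0 < δ ∧ δ ≤ 1 ∧ (δ = 1 ↔ ∀ n : ℕ, 1 ≤ n → ∃ k : ℕ, Tn^[k] n = 1) ∧
    Dn (fun n => ∃ k : ℕ, Tn^[k] n = 1) δ ∧ RX (fun n => ∃ k, H k n) δ ∧
    ∀ (m : ℕ) (a b : ℤ), 1 ≤ m →
      RX (fun n => ∃ k, H k n ∧ ((k : ℤ) ≡ a [ZMOD m] ∧ (odn k n : ℤ) ≡ b [ZMOD m])) (δ / m ^ 2) ∧
      RX (fun n => ∃ k, H k n ∧ (odn k n : ℤ) ≡ b [ZMOD m]) (δ / m) ∧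
      ∀ x : ℝ,
        RX (fun n => ∃ k, H k n ∧ ((k : ℝ) ≤ bk x (Real.log n) ∧ (k : ℤ) ≡ a [ZMOD m] ∧
          (odn k n : ℤ) ≡ b [ZMOD m])) (δ / m ^ 2 * Phi x) ∧
        RX (fun n => ∃ k, H k n ∧ (((k + odn k n : ℕ) : ℝ) ≤ bc x (Real.log n) ∧
          ((k + odn k n : ℕ) : ℤ) ≡ a [ZMOD m] ∧ (odn k n : ℤ) ≡ b [ZMOD m])) (δ / m ^ 2 * Phi x) ∧
        RX (fun n => ∃ k, H k n ∧ ((odn k n : ℝ) ≤ bo x (Real.log n) ∧ (odn k n : ℤ) ≡ b [ZMOD m]))
          (δ / m * Phi x) := by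
  obtain ⟨δ, h0, h1, h2, h3, h4⟩ := law_one
  obtain ⟨δ1, _, _, _, h31, h41⟩ := law_k
  obtain ⟨δ2, _, _, _, h32, h42⟩ := law_oneC
  have e1 : δ1 = δ := tendsto_nhds_unique h31 h3
  have e2 : δ2 = δ := by
    refine tendsto_nhds_unique (Dn_iff (fun n _ => ?_) h32) h3
    exact (BasC n).symm
  rw [e1] at h41
  rw [e2] at h42
  have hnu := nu_pos
  have hrr := rr_pos
  have hl2 : 0 < Real.log 2 := Real.log_pos (by norm_num)
  have hl3 : 0 < Real.log 3 := Real.log_pos (by norm_num)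
  have hl6 : 0 < Real.log 6 := Real.log_pos (by norm_num)
  have s1 : (1 : ℤ) = 1 ∨ (1 : ℤ) = -1 := Or.inl rfl
  have hB : Dn (fun n => ∃ k, H k n) δ := Dn_iff (fun n _ => hit_iff n) h3
  have c0 : Continuous (fun _ : ℝ => δ) := continuous_const
  refine ⟨δ, h0, h1, h2, h3, ?_, fun m a b hm => ⟨?_, ?_, fun x => ⟨?_, ?_, ?_⟩⟩⟩
  · have A := mkFam (ι := Unit) (fun _ _ _ _ => True) id 0 1 1 (fun _ _ => δ) le_rfl one_pos
      (fun _ _ _ _ _ _ h => h) (fun _ _ _ _ => Iff.rfl) (fun _ _ => rfl) (fun _ _ => ⟨h0.le, h1⟩) (fun _ => c0)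
      (fun _ _ => by simpa using hB)
    have h5 := fam_RX s1 (mkFam (ι := Unit) (fun _ _ _ _ => True) id 0 1 1 (fun _ _ => δ) le_rfl one_pos
      (fun _ _ _ _ _ _ h => h) (fun _ _ _ _ => Iff.rfl) (fun _ _ => rfl) (fun _ _ => ⟨h0.le, h1⟩) (fun _ => c0)
      (fun _ _ => by simpa using hB)) () 0
    refine RX_congr (fun n _ => ?_) h5
    show (∃ k, H k n ∧ True) ↔ _
    simp
  · have h5 := fam_RX s1 (mkFam (ι := ℤ × ℤ) (fun i _ k o => (k : ℤ) ≡ i.1 [ZMOD m] ∧ (o : ℤ) ≡ i.2 [ZMOD m])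
      (fun i => (i.1 - 1, i.2)) 0 1 1 (fun _ _ => δ / (m : ℝ) ^ 2) le_rfl one_pos
      (fun _ _ _ _ _ _ h => h) (fun i _ k o => by rw [mod_succ]) (fun _ _ => rfl) (fun _ _ => div_sq_le h0 h1 hm)
      (fun _ => continuous_const)
      (fun i _ => (h4 m i.1 i.2 hm).1)) (a, b) 0
    exact h5
  · have h5 := fam_RX s1 (mkFam (ι := ℤ) (fun i _ _ o => (o : ℤ) ≡ i [ZMOD m])
      id 0 1 1 (fun _ _ => δ / (m : ℝ)) le_rfl one_pos
      (fun _ _ _ _ _ _ h => h) (fun i _ k o => Iff.rfl) (fun _ _ => rfl) (fun _ _ => div_le' h0 h1 hm)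
      (fun _ => continuous_const)
      (fun i _ => (h41 m i hm).1)) b 0
    exact h5
  · have h5 := fam_RX s1 (mkFam (ι := ℤ × ℤ) (fun i τ k o => (k : ℝ) ≤ τ ∧ (k : ℤ) ≡ i.1 [ZMOD m] ∧ (o : ℤ) ≡ i.2 [ZMOD m])
      (fun i => (i.1 - 1, i.2)) 1 (2 / Real.log (4 / 3)) (Real.log 3 * rr) (fun _ x => δ / (m : ℝ) ^ 2 * Phi x)
      zero_le_one (by positivity)
      (fun _ _ _ _ _ h1 h => ⟨h.1.trans h1, h.2⟩) (fun i τ k o => by
        rw [mod_succ, le_sub_iff_add_le]; push_cast; rfl) (fun _ _ => rfl)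
      (fun _ x => mul01 (div_sq_le h0 h1 hm) (phi01 x))
      (fun _ => Phi_continuous.const_mul _)
      (fun i x => by
        have h6 := (h4 m i.1 i.2 hm).2 x
        have e : δ * ProbabilityTheory.cdf (ProbabilityTheory.gaussianReal 0 1) x / (m : ℝ) ^ 2
            = δ / m ^ 2 * Phi x := by rw [phi_cdf]; ring
        rw [e] at h6
        refine Dn_iff (fun n _ => exists_congr fun k => ?_) h6
        rw [← bk_thr]
        unfold bk H
        tauto)) (a, b) x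
    refine RX_congr (fun n _ => ?_) h5
    rw [bk_thr]
    exact Iff.rfl
  · have h5 := fam_RX s1 (mkFam (ι := ℤ × ℤ) (fun i τ k o => ((k + o : ℕ) : ℝ) ≤ τ ∧ ((k + o : ℕ) : ℤ) ≡ i.1 [ZMOD m] ∧
        (o : ℤ) ≡ i.2 [ZMOD m])
      (fun i => (i.1 - 1, i.2)) 1 (3 / Real.log (4 / 3)) (Real.log 6 * rr) (fun _ x => δ / (m : ℝ) ^ 2 * Phi x)
      zero_le_one (by positivity)
      (fun _ _ _ _ _ h1 h => ⟨h.1.trans h1, h.2⟩) (fun i τ k o => by
        rw [show k + 1 + o = (k + o) + 1 by ring, mod_succ, le_sub_iff_add_le]; push_cast; rfl) (fun _ _ => rfl)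
      (fun _ x => mul01 (div_sq_le h0 h1 hm) (phi01 x))
      (fun _ => Phi_continuous.const_mul _)
      (fun i x => by
        have h6 := h42 m i.1 i.2 hm x
        have e : δ * ProbabilityTheory.cdf (ProbabilityTheory.gaussianReal 0 1) x / (m : ℝ) ^ 2
            = δ / m ^ 2 * Phi x := by rw [phi_cdf]; ring
        rw [e] at h6
        refine Dn_iff (fun n hn => ?_) h6
        rw [← bc_thr]
        constructor
        · rintro ⟨l, g1, g2, g3, g4⟩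
          obtain ⟨k, hk, rfl⟩ := (hitC hn).1 g2
          rw [ocn_run] at g4
          exact ⟨k, hk, g1, g3, g4⟩
        · rintro ⟨k, hk, g1, g3, g4⟩
          exact ⟨k + odn k n, g1, (hitC hn).2 ⟨k, hk, rfl⟩, g3, by rw [ocn_run]; exact g4⟩)) (a, b) x
    refine RX_congr (fun n _ => ?_) h5
    rw [bc_thr]
    exact Iff.rfl
  · have h5 := fam_RX s1 (mkFam (ι := ℤ) (fun i τ _ o => (o : ℝ) ≤ τ ∧ (o : ℤ) ≡ i [ZMOD m])
      id 0 (1 / Real.log (4 / 3)) (Real.log 2 * rr) (fun _ x => δ / (m : ℝ) * Phi x)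
      le_rfl (by positivity)
      (fun _ _ _ _ _ h1 h => ⟨h.1.trans h1, h.2⟩) (fun i τ k o => by
        rw [sub_zero]; rfl) (fun _ _ => rfl)
      (fun _ x => mul01 (div_le' h0 h1 hm) (phi01 x))
      (fun _ => Phi_continuous.const_mul _)
      (fun i x => by
        refine Dn_iff (fun n _ => exists_congr fun k => ?_) (law_o (h41 m i hm).2 x)
        rw [← bo_thr]
        tauto)) b x
    refine RX_congr (fun n _ => ?_) h5
    rw [bo_thr]
    exact Iff.rfl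

end Pool.Agent.Q49.EX
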