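import Pool.Agent.Q49.EX.C

/-! Test sets. -/

set_option autoImplicit false

namespace Pool.Agent.Q49.EX

open Finset Filter Topology
open Pool.Agent.Q49.AF (AddR AddA top)
open Pool.Agent.W41.MU

/-- the test sets -/
def IsTest (d r k : ℕ) (E : Set ℕ) : Prop :=
  ∃ (f : Fin d → ℕ → ℝ) (I : Fin d → Set ℝ) (A : Type) (_ : AddCommMonoid A) (h : ℕ → A) (B : Set (A × List ℕ)),
    (∀ i, AddR (f i)) ∧ (∀ i, (I i).OrdConnected) ∧ AddA h ∧ (∃ V : Finset A, V.card ≤ r ∧ ∀ p : ℕ, p.Prime → h p ∈ V) ∧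
    E = {n : ℕ | (∀ i, f i n ∈ I i) ∧ (h n, top k n) ∈ B}

/-- the number of the `n ≤ N` in `E` with the property `P` -/
noncomputable def Count (N : ℕ) (P : ℕ → Prop) (E : Set ℕ) : ℕ := {n : ℕ | 1 ≤ n ∧ n ≤ N ∧ n ∈ E ∧ P n}.ncard

/-- on a finite set every interval condition is given by a closed interval -/
theorem closed_of (f : ℕ → ℝ) {I : Set ℝ} (hI : I.OrdConnected) (N : ℕ) :
    ∃ a b : ℝ, ∀ n ∈ Finset.Icc 1 N, f n ∈ I ↔ a ≤ f n ∧ f n ≤ b := by
  classical
  set V : Finset ℝ := ((Finset.Icc 1 N).image f).filter (fun y => y ∈ I) with hV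
  rcases V.eq_empty_or_nonempty with h | h
  · refine ⟨1, 0, fun n hn => ⟨fun hf => ?_, fun hf => ?_⟩⟩
    · exfalso
      have : f n ∈ V := by
        rw [hV, Finset.mem_filter]; exact ⟨Finset.mem_image_of_mem f hn, hf⟩
      rw [h] at this
      exact Finset.notMem_empty _ this
    · exfalso; linarith [hf.1, hf.2]
  · refine ⟨V.min' h, V.max' h, fun n hn => ⟨fun hf => ?_, fun hf => ?_⟩⟩
    · have : f n ∈ V := by
        rw [hV, Finset.mem_filter]; exact ⟨Finset.mem_image_of_mem f hn, hf⟩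
      exact ⟨V.min'_le _ this, V.le_max' _ this⟩
    · have h1 := (Finset.mem_filter.1 (V.min'_mem h)).2
      have h2 := (Finset.mem_filter.1 (V.max'_mem h)).2
      exact hI.out h1 h2 ⟨hf.1, hf.2⟩

open scoped Classical in
theorem count_eq (N : ℕ) (P : ℕ → Prop) (E : Set ℕ) :
    (Count N P E : ℝ) = ∑ n ∈ Finset.Icc 1 N, if n ∈ E then (if P n then (1 : ℝ) else 0) else 0 := by
  have e1 : {n : ℕ | 1 ≤ n ∧ n ≤ N ∧ n ∈ E ∧ P n} =
      ((Finset.Icc 1 N).filter (fun n : ℕ => n ∈ E ∧ P n) : Finset ℕ) := by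
    ext n
    simp only [Set.mem_ofPred_eq, Finset.coe_filter, Finset.mem_Icc]
    tauto
  unfold Count
  rw [e1, Set.ncard_coe_finset, Finset.card_filter]
  push_cast
  apply Finset.sum_congr rfl; intro n _
  by_cases h1 : n ∈ E <;> by_cases h2 : P n <;> simp [h1, h2]

open scoped Classical in
theorem test_of {N d r k : ℕ} {c : ℕ → ℂ} {η : ℝ} (H : Sml (d + d) r k N c η) {E : Set ℕ} (hE : IsTest d r k E)
    {g : ℕ → ℂ} (hg : MulB g) : ‖∑ n ∈ Finset.Icc 1 N, if n ∈ E then c n * g n else 0‖ ≤ η * N := by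
  obtain ⟨f, I, A, instA, u, B, hf, hI, hu, hfv, hEq⟩ := hE
  have hmem : ∀ n, n ∈ E ↔ ((∀ i, f i n ∈ I i) ∧ (u n, top k n) ∈ B) := fun n => by rw [hEq]; exact Iff.rfl
  clear hEq
  obtain ⟨V, hVr, hV⟩ := hfv
  have hab := fun i => closed_of (f i) (hI i) N
  choose a b hab using hab
  have h1 := H g hg (Fin.append f (fun i n => - f i n)) (by
    intro i
    refine Fin.addCases (fun j => ?_) (fun j => ?_) i
    · rw [Fin.append_left]; exact hf j
    · rw [Fin.append_right]
      intro m n hmn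
      simp only
      rw [hf j m n hmn]; ring) (Fin.append b (fun i => - a i)) A u hu V hV hVr
      (fun v a => if (a, v) ∈ B then 1 else 0) (fun v a => by split_ifs <;> simp)
  have e1 : ∑ n ∈ Finset.Icc 1 N, (if n ∈ E then c n * g n else 0)
      = ∑ n ∈ Finset.Icc 1 N, c n *
        Pool.Agent.Q49.AF.cls g (Fin.append f (fun i n => - f i n)) (Fin.append b (fun i => - a i)) u
          (fun n a => if (a, Pool.Agent.Q49.AF.top k n) ∈ B then 1 else 0) n := by
    apply Finset.sum_congr rfl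
    intro n hn
    have hiff : (∀ i, f i n ∈ I i) ↔ ∀ i : Fin (d + d), Fin.append f (fun i n => - f i n) i n ≤ Fin.append b (fun i => - a i) i := by
      constructor
      · intro h i
        refine Fin.addCases (fun j => ?_) (fun j => ?_) i
        · rw [Fin.append_left, Fin.append_left]
          exact ((hab j n hn).1 (h j)).2
        · rw [Fin.append_right, Fin.append_right]
          exact neg_le_neg ((hab j n hn).1 (h j)).1
      · intro h j
        refine (hab j n hn).2 ⟨?_, ?_⟩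
        · have := h (Fin.natAdd d j)
          rw [Fin.append_right, Fin.append_right] at this
          exact neg_le_neg_iff.1 this
        · have := h (Fin.castAdd d j)
          rwa [Fin.append_left, Fin.append_left] at this
    unfold Pool.Agent.Q49.AF.cls
    by_cases h : ∀ i, f i n ∈ I i
    · rw [if_pos (hiff.1 h)]
      beta_reduce
      by_cases h' : (u n, top k n) ∈ B
      · rw [if_pos ((hmem n).2 ⟨h, h'⟩), if_pos h', mul_one]
      · rw [if_neg (fun h3 => h' ((hmem n).1 h3).2), if_neg h', mul_zero, mul_zero]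
    · rw [if_neg (fun h' => h (hiff.2 h')), mul_zero, if_neg (fun h3 => h ((hmem n).1 h3).1)]
  rw [e1]
  exact h1

open scoped Classical in
theorem count_of {N d r k : ℕ} {P Q : ℕ → Prop} {l η : ℝ}
    (H : Sml (d + d) r k N (fun n => (if P n then (1 : ℂ) else 0) - l * (if Q n then 1 else 0)) η) {E : Set ℕ}
    (hE : IsTest d r k E) : |(Count N P E : ℝ) - l * Count N Q E| ≤ η * N := by
  have h1 := test_of H hE (g := fun _ => 1) ⟨fun _ => by simp, fun _ _ _ => by simp⟩
  rw [count_eq, count_eq, Finset.mul_sum, ← Finset.sum_sub_distrib, ← Real.norm_eq_abs, ← Complex.norm_real]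
  refine le_trans (le_of_eq ?_) h1
  congr 1
  rw [Complex.ofReal_sum]
  apply Finset.sum_congr rfl; intro n _
  simp only [mul_one]
  by_cases h2 : n ∈ E
  · rw [if_pos h2, if_pos h2, if_pos h2]
    by_cases h3 : P n
    · rw [if_pos h3, if_pos h3]
      by_cases h4 : Q n
      · rw [if_pos h4, if_pos h4]; push_cast; ring
      · rw [if_neg h4, if_neg h4]; push_cast; ring
    · rw [if_neg h3, if_neg h3]
      by_cases h4 : Q n
      · rw [if_pos h4, if_pos h4]; push_cast; ring
      · rw [if_neg h4, if_neg h4]; push_cast; ring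
  · rw [if_neg h2, if_neg h2, if_neg h2]; simp

/-- sums of small families -/
theorem sml_sub {d r k N : ℕ} {c c' : ℕ → ℂ} {η η' : ℝ} (h : Sml d r k N c η) (h' : Sml d r k N c' η') :
    Sml d r k N (fun n => c n - c' n) (η + η') := by
  intro g hg f hf t A _ u hu V hV hVr Φ hΦ
  have h1 := h g hg f hf t A u hu V hV hVr Φ hΦ
  have h2 := h' g hg f hf t A u hu V hV hVr Φ hΦ
  have e : ∑ n ∈ Icc 1 N, (c n - c' n) * Pool.Agent.Q49.AF.cls g f t u (fun n => Φ (top k n)) n
      = ∑ n ∈ Icc 1 N, c n * Pool.Agent.Q49.AF.cls g f t u (fun n => Φ (top k n)) n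
        - ∑ n ∈ Icc 1 N, c' n * Pool.Agent.Q49.AF.cls g f t u (fun n => Φ (top k n)) n := by
    rw [← sum_sub_distrib]
    apply sum_congr rfl; intro n _; ring
  rw [e, add_mul]
  exact (norm_sub_le _ _).trans (add_le_add h1 h2)

end Pool.Agent.Q49.EX
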