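import Pool.Agent.Q49.EX.D

/-! Large excursions, and limit laws, relative to test sets. -/

set_option autoImplicit false

namespace Pool.Agent.Q49.EX

open Finset Filter Topology
open Pool.Agent.H499R2.ND (Dn Tn Td Phi Phi_continuous phi_cdf Bdd Bdd_inv AK AK_mod AK_of_bound rK rK_ge rK_nonneg cnt NS NS_inv
  NS_ncard HD HD_ncard HD_unique dens_side Inv cnt_eq exc_law dn_AK)

open scoped Classical in
/-- UNIFORM LAW of the large excursions in invariant sets. -/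
theorem exc_far (d r k : ℕ) {lam : ℝ} (hl : 1 ≤ lam) {ε : ℝ} (hε : 0 < ε) (hε1 : ε ≤ 1) :
    ∃ K0 : ℕ, ∀ K : ℕ, K0 ≤ K → ∃ N0 : ℕ, ∀ P : ℕ → Prop, (∀ n, 1 ≤ n → (P n ↔ P (Tn n))) → ∀ δ : ℝ,
    Dn (fun n => P n ∧ Bdd n) δ → ∀ N : ℕ, N0 ≤ N →
    Sml d r k N (fun n => (if P n ∧ Bdd n ∧ ¬ Ec lam n then (1 : ℂ) else 0) - δ * (if ¬ AK K lam n then 1 else 0)) ε := by
  obtain ⟨K0, hK0⟩ := exc_inv d r k hl (show 0 < ε / 2 by positivity) (by linarith)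
  refine ⟨K0, fun K hK => ?_⟩
  obtain ⟨N1, hN1⟩ := hK0 K hK
  obtain ⟨N2, _, hN2⟩ := orth_all (s := 1) (Or.inl rfl) (show 0 < ε / 2 by positivity) (by linarith) d r k
  refine ⟨N1 + N2, fun P hP δ hδ N hN => ?_⟩
  obtain ⟨Q, hQ⟩ : ∃ Q : ℕ → Prop, Q = fun n => P n ∧ Bdd n := ⟨_, rfl⟩
  have hQn : ∀ n, Q n ↔ (P n ∧ Bdd n) := fun n => by rw [hQ]
  have hQi : ∀ n, 1 ≤ n → (Q n ↔ Q (Tn n)) := fun n hn => by
    rw [hQn, hQn]
    exact and_congr (hP n hn) (Bdd_inv n)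
  have h1 := hN1 P hP δ hδ N (by omega)
  rw [← hQ] at hδ
  have h2 := hN2 (NS Q) (NS_inv hQi) δ (hd_nat hQi hδ) N (by omega) 0
  have h3 : Sml d r k N (fun n => (if Q n then (1 : ℂ) else 0) - δ) (ε / 2) :=
    sml_congr h2 (fun n hn => bal_eq δ hn)
  have h4 := sml_sub h3 h1
  have e : ε / 2 + ε / 2 = ε := by ring
  rw [e] at h4
  refine sml_congr h4 (fun n _ => ?_)
  by_cases hA : AK K lam n
  · rw [if_pos hA, if_neg (not_not.2 hA)]
    by_cases hp : P n ∧ Ec lam n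
    · rw [if_pos hp, if_pos ((hQn n).2 ⟨hp.1, ec_bdd hp.2⟩), if_neg (fun h => h.2.2 hp.2)]; ring
    · rw [if_neg hp]
      by_cases hq : Q n
      · rw [if_pos hq, if_pos ⟨((hQn n).1 hq).1, ((hQn n).1 hq).2, fun h => hp ⟨((hQn n).1 hq).1, h⟩⟩]; ring
      · rw [if_neg hq, if_neg (fun h => hq ((hQn n).2 ⟨h.1, h.2.1⟩))]; ring
  · rw [if_neg hA, if_pos hA]
    by_cases hp : P n ∧ Ec lam n
    · rw [if_pos hp, if_pos ((hQn n).2 ⟨hp.1, ec_bdd hp.2⟩), if_neg (fun h => h.2.2 hp.2)]; ring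
    · rw [if_neg hp]
      by_cases hq : Q n
      · rw [if_pos hq, if_pos ⟨((hQn n).1 hq).1, ((hQn n).1 hq).2, fun h => hp ⟨((hQn n).1 hq).1, h⟩⟩]; ring
      · rw [if_neg hq, if_neg (fun h => hq ((hQn n).2 ⟨h.1, h.2.1⟩))]; ring

open scoped Classical in
theorem count_safe (N K : ℕ) (lam : ℝ) (E : Set ℕ) : (Count N (AK K lam) E : ℝ)
    = ∑ r ∈ ({r ∈ range (2 ^ K) | AK K lam r} : Finset ℕ), (Count N (fun n => n % 2 ^ K = r % 2 ^ K) E : ℝ) := by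
  simp_rw [count_eq]
  rw [sum_comm]
  apply sum_congr rfl; intro n _
  by_cases hE : n ∈ E
  · simp only [hE, if_true]
    rw [← AK_mod]
    have hlt : n % 2 ^ K < 2 ^ K := Nat.mod_lt _ (by positivity)
    by_cases hA : AK K lam (n % 2 ^ K)
    · rw [if_pos hA]
      symm
      rw [sum_eq_single (n % 2 ^ K)]
      · rw [if_pos (by rw [Nat.mod_mod])]
      · intro b hb hne
        have h1 := mem_range.1 (mem_filter.1 hb).1
        rw [if_neg (fun h => hne (by rw [h, Nat.mod_eq_of_lt h1]))]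
      · intro h
        exact absurd (mem_filter.2 ⟨mem_range.2 hlt, hA⟩) h
    · rw [if_neg hA]
      symm
      apply sum_eq_zero
      intro b hb
      have h1 := mem_range.1 (mem_filter.1 hb).1
      rw [if_neg (fun h => hA (by rw [h, Nat.mod_eq_of_lt h1]; exact (mem_filter.1 hb).2))]
  · simp [hE]

open scoped Classical in
theorem lim_safe {E : ℕ → Set ℕ} {p : ℝ}
    (hE : ∀ j a : ℕ, Tendsto (fun N : ℕ => (Count N (fun n => n % 2 ^ j = a % 2 ^ j) (E N) : ℝ) / N) atTop (𝓝 (p / 2 ^ j)))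
    (K : ℕ) (lam : ℝ) : Tendsto (fun N : ℕ => (Count N (AK K lam) (E N) : ℝ) / N) atTop (𝓝 (rK K lam * p)) := by
  classical
  have h1 : Tendsto (fun N : ℕ => ∑ r ∈ ({r ∈ range (2 ^ K) | AK K lam r} : Finset ℕ),
      (Count N (fun n => n % 2 ^ K = r % 2 ^ K) (E N) : ℝ) / N) atTop
      (𝓝 (∑ _r ∈ ({r ∈ range (2 ^ K) | AK K lam r} : Finset ℕ), p / 2 ^ K)) :=
    tendsto_finsetSum _ fun r _ => hE K r
  have e : ∑ _r ∈ ({r ∈ range (2 ^ K) | AK K lam r} : Finset ℕ), p / 2 ^ K = rK K lam * p := by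
    rw [sum_const, nsmul_eq_mul]
    unfold rK
    ring_nf
  rw [e] at h1
  refine h1.congr fun N => ?_
  rw [count_safe, sum_div]

/-- passage to the limit -/
theorem lim_law {P : ℕ → Prop} {E : ℕ → Set ℕ} {p q l lam : ℝ} (hq : Tendsto (fun K => rK K lam) atTop (𝓝 q))
    (hE : ∀ j a : ℕ, Tendsto (fun N : ℕ => (Count N (fun n => n % 2 ^ j = a % 2 ^ j) (E N) : ℝ) / N) atTop (𝓝 (p / 2 ^ j)))
    (H : ∀ ε : ℝ, 0 < ε → ∃ K0 : ℕ, ∀ K : ℕ, K0 ≤ K → ∃ N0 : ℕ, ∀ N : ℕ, N0 ≤ N →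
      |(Count N P (E N) : ℝ) - l * Count N (AK K lam) (E N)| ≤ ε * N) :
    Tendsto (fun N : ℕ => (Count N P (E N) : ℝ) / N) atTop (𝓝 (l * q * p)) := by
  rw [Metric.tendsto_atTop]
  intro ε hε
  obtain ⟨K0, hK0⟩ := H (ε / 3) (by positivity)
  have hq' : Tendsto (fun K => l * (rK K lam * p)) atTop (𝓝 (l * (q * p))) := (hq.mul_const p).const_mul l
  obtain ⟨K1, hK1⟩ := Metric.tendsto_atTop.1 hq' (ε / 3) (by positivity)
  obtain ⟨N0, hN0⟩ := hK0 (K0 + K1) (by omega)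
  have h2 := hK1 (K0 + K1) (by omega)
  obtain ⟨N1, hN1⟩ := Metric.tendsto_atTop.1 ((lim_safe hE (K0 + K1) lam).const_mul l) (ε / 3) (by positivity)
  refine ⟨N0 + N1 + 1, fun N hN => ?_⟩
  have hNp : (0 : ℝ) < N := by exact_mod_cast (by omega : 0 < N)
  have h3 := hN0 N (by omega)
  have h4 := hN1 N (by omega)
  rw [Real.dist_eq] at h2 h4 ⊢
  have h5 : |(Count N P (E N) : ℝ) / N - l * ((Count N (AK (K0 + K1) lam) (E N) : ℝ) / N)| ≤ ε / 3 := by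
    have e : (Count N P (E N) : ℝ) / N - l * ((Count N (AK (K0 + K1) lam) (E N) : ℝ) / N)
        = ((Count N P (E N) : ℝ) - l * Count N (AK (K0 + K1) lam) (E N)) / N := by ring
    rw [e, abs_div, abs_of_pos hNp, div_le_iff₀ hNp]
    exact h3
  have h6 := abs_le.1 h5
  have h7 := abs_lt.1 h2
  have h8 := abs_lt.1 h4
  rw [abs_lt]
  constructor <;> nlinarith

end Pool.Agent.Q49.EX
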